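import Pool.Agent.T2h83.UP.Rough
import Pool.Agent.Y877.SxE

/-!
Project UP (helper83): assembly: the representations `N = s + p`, `s` in a given set, for almost all members `N` of a residue
class.
-/

set_option autoImplicit false

namespace Pool.Agent.T2h83.UP

open Finset
open Pool.Agent.H373R2.T7 (Vz pz mem_pz Vz_pos Vz_le_one lamz)
open Pool.Agent.Y877.SX (mid mem_mid Vm Vm_pos Vm_le Vz_split)

open Classical in
lemma lamz_eq_cls (y z M q n s : ℕ) (hsN : s ≤ M * n) (hs : s.Prime) (hsz : z < s) (hM : ∀ p : ℕ, p.Prime → p ≤ y → p ∣ M)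
    (hq : ∀ p ∈ mid y z, p ∣ q → p ∣ n) :
    lamz z (M * n - s) = if ∀ p ∈ (mid y z).filter (fun p => ¬ p ∣ q), ¬ p ∣ M * n - s then (Vz z)⁻¹ else 0 := by
  unfold lamz
  have hno : ∀ p ∈ pz z, p ∣ M * n → ¬ p ∣ M * n - s := by
    intro p hp hpn hd
    rw [mem_pz] at hp
    have h2 : p ∣ M * n - (M * n - s) := Nat.dvd_sub hpn hd
    rw [Nat.sub_sub_self hsN] at h2
    have h3 := (Nat.prime_dvd_prime_iff_eq hp.2 hs).1 h2
    omega
  have : (∀ p ∈ pz z, ¬ p ∣ M * n - s) ↔ (∀ p ∈ (mid y z).filter (fun p => ¬ p ∣ q), ¬ p ∣ M * n - s) := by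
    constructor
    · intro h p hp
      exact h p (mem_pz.2 (mem_mid.1 (mem_filter.1 hp).1).2)
    · intro h p hp hd
      by_cases hy : y < p
      · have hpm : p ∈ mid y z := mem_mid.2 ⟨hy, mem_pz.1 hp⟩
        by_cases hpq : p ∣ q
        · exact hno p hp ((hq p hpm hpq).mul_left _) hd
        · exact h p (mem_filter.2 ⟨hpm, hpq⟩) hd
      · exact hno p hp ((hM p (mem_pz.1 hp).2 (by omega)).mul_right _) hd
  by_cases h : ∀ p ∈ (mid y z).filter (fun p => ¬ p ∣ q), ¬ p ∣ M * n - s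
  · rw [if_pos h, if_pos (this.2 h)]
  · rw [if_neg h, if_neg (fun h2 => h (this.1 h2))]

/-- prime powers -/
lemma pp_one (x Y N : ℕ) (hY : 1 ≤ Y) (S : Finset ℕ) (hS : S ⊆ Icc 1 x) (hN : x < N) (hNY : N ≤ Y) :
    ∑ s ∈ S, (if (N - s).Prime then (0 : ℝ) else ArithmeticFunction.vonMangoldt (N - s)) ≤
      2 * √(Y : ℝ) * Real.log (Y : ℝ) := by
  have h2 := Chebyshev.psi_sub_theta_le (x := (Y : ℝ)) (by exact_mod_cast hY)
  rw [Chebyshev.psi_sub_theta_eq_sum_not_prime, Nat.floor_natCast, sum_filter] at h2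
  refine le_trans ?_ h2
  have e1 : ∑ s ∈ S, (if (N - s).Prime then (0 : ℝ) else ArithmeticFunction.vonMangoldt (N - s)) =
      ∑ n ∈ S.image (fun s => N - s), (if ¬ n.Prime then ArithmeticFunction.vonMangoldt n else (0 : ℝ)) := by
    rw [sum_image]
    · apply sum_congr rfl
      intro h _
      by_cases hp : (N - h).Prime
      · rw [if_pos hp, if_neg (not_not.2 hp)]
      · rw [if_neg hp, if_pos hp]
    · intro a ha b hb hab
      have h3 := mem_Icc.1 (hS ha)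
      have h4 := mem_Icc.1 (hS hb)
      simp only at hab
      omega
  rw [e1]
  apply sum_le_sum_of_subset_of_nonneg
  · intro n hn
    rw [mem_image] at hn
    obtain ⟨s, hs, rfl⟩ := hn
    have h3 := mem_Icc.1 (hS hs)
    rw [mem_Ioc]
    omega
  · intro n _ _
    split_ifs
    · exact le_rfl
    · exact ArithmeticFunction.vonMangoldt_nonneg

open Classical in
lemma asm (S : Finset ℕ) (x y z M q n₁ J : ℕ) (δ m R : ℝ) (hδ : 0 < δ) (hm : (S.card : ℝ) = m) (hm0 : 0 < m)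
    (hyz : y ≤ z) (hS : S ⊆ Icc 1 x) (hSp : ∀ s ∈ S, s.Prime ∧ z < s) (hq1 : 1 ≤ q)
    (hMp : ∀ p : ℕ, p.Prime → p ≤ y → p ∣ M) (hq : ∀ p ∈ mid y z, p ∣ q → p ∣ n₁) (hn1 : x < M * n₁)
    (hn3 : M * n₁ + M * q * J ≤ 3 * x)
    (hrough : (((Icc 1 J).filter (fun g => ((S.filter (fun s => ∀ p ∈ (mid y z).filter (fun p => ¬ p ∣ q),
      ¬ p ∣ (M * n₁ - s) + (M * q) * g)).card : ℝ) <
      (1 - δ) * (m * VP ((mid y z).filter (fun p => ¬ p ∣ q))))).card : ℝ) ≤ δ * J)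
    (hbil : ∑ v ∈ range (J + 1), |∑ s ∈ S, (ArithmeticFunction.vonMangoldt (M * n₁ + M * q * v - s) -
      lamz z (M * n₁ + M * q * v - s))| ≤ R)
    (hR : R ≤ (δ * J) * (δ * m)) (hPP : 2 * √((3 * x : ℕ) : ℝ) * Real.log ((3 * x : ℕ) : ℝ) ≤ δ * m) :
    (((Icc 1 J).filter (fun g => ((S.filter (fun s => (M * n₁ + M * q * g - s).Prime)).card : ℝ) *
      Real.log ((3 * x : ℕ) : ℝ) < (1 - 3 * δ) * (m * (Vz y)⁻¹))).card : ℝ) ≤ 2 * δ * J := by
  have hδm : 0 < δ * m := by positivity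
  have hVy := Vz_pos y
  have hVz := Vz_pos z
  have hVm := Vm_pos y z
  have hVy1 : 1 ≤ (Vz y)⁻¹ := by
    rw [one_le_inv₀ hVy]
    exact Vz_le_one y
  have hsplit := Vz_split y z hyz
  obtain ⟨P, hP⟩ : ∃ P, P = (mid y z).filter (fun p => ¬ p ∣ q) := ⟨_, rfl⟩
  rw [← hP] at hrough
  have hPm : P ⊆ mid y z := by rw [hP]; exact filter_subset _ _
  have hVP : Vm y z ≤ VP P := Vm_le_VP P y z hPm
  have hVP0 : 0 < VP P := hVm.trans_le hVP
  have hVV : (Vz y)⁻¹ ≤ (Vz z)⁻¹ * VP P := by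
    rw [hsplit, mul_inv]
    calc (Vz y)⁻¹ = (Vz y)⁻¹ * ((Vm y z)⁻¹ * Vm y z) := by rw [inv_mul_cancel₀ hVm.ne', mul_one]
      _ ≤ (Vz y)⁻¹ * ((Vm y z)⁻¹ * VP P) := by gcongr
      _ = _ := by ring
  obtain ⟨N, hN⟩ : ∃ N : ℕ → ℕ, ∀ g, N g = M * n₁ + M * q * g := ⟨_, fun _ => rfl⟩
  obtain ⟨cX, hcX⟩ : ∃ cX : ℕ → ℝ, ∀ g, cX g = ((S.filter (fun s => ∀ p ∈ P, ¬ p ∣ (M * n₁ - s) + (M * q) * g)).card : ℝ) :=
    ⟨_, fun _ => rfl⟩
  obtain ⟨T, hT⟩ : ∃ T : ℕ → ℝ, ∀ g, T g = ∑ s ∈ S, ArithmeticFunction.vonMangoldt (N g - s) := ⟨_, fun _ => rfl⟩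
  simp only [← hN] at hbil ⊢
  set B1 := (Icc 1 J).filter (fun g => cX g < (1 - δ) * (m * VP P)) with hB1
  set B2 := (Icc 1 J).filter (fun g => (1 - δ) * (m * VP P) ≤ cX g ∧ T g < (1 - 2 * δ) * (m * (Vz y)⁻¹)) with hB2
  have hxS : ∀ s ∈ S, s ≤ x := fun s hs => (mem_Icc.1 (hS hs)).2
  have hxN : ∀ g, x < N g := fun g => by rw [hN]; omega
  have c1 : (B1.card : ℝ) ≤ δ * J := by
    have : B1 = (Icc 1 J).filter (fun g => ((S.filter (fun s => ∀ p ∈ P, ¬ p ∣ (M * n₁ - s) + (M * q) * g)).card : ℝ) <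
      (1 - δ) * (m * VP P)) := by
      rw [hB1]
      ext g
      rw [mem_filter, mem_filter, hcX]
    rw [this]
    exact hrough
  have c2 : (B2.card : ℝ) ≤ δ * J := by
    have h1 : ∀ g ∈ B2, δ * m ≤ |∑ s ∈ S, (ArithmeticFunction.vonMangoldt (N g - s) - lamz z (N g - s))| := by
      intro g hg
      rw [hB2, mem_filter] at hg
      obtain ⟨_, h2, h3⟩ := hg
      rw [sum_sub_distrib, ← hT]
      have h4 : ∑ s ∈ S, lamz z (N g - s) = (Vz z)⁻¹ * cX g := by
        have : ∀ s ∈ S, lamz z (N g - s) = if ∀ p ∈ P, ¬ p ∣ (M * n₁ - s) + (M * q) * g then (Vz z)⁻¹ else 0 := by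
          intro s hs
          have h8 := hxS s hs
          have h9 : N g = M * (n₁ + q * g) := by rw [hN]; ring
          have h10 : M * (n₁ + q * g) - s = (M * n₁ - s) + (M * q) * g := by
            rw [← h9, hN]
            omega
          rw [h9, lamz_eq_cls y z M q (n₁ + q * g) s (by rw [← h9]; have := hxN g; omega) (hSp s hs).1 (hSp s hs).2 hMp
            (fun p hp hpq => dvd_add (hq p hp hpq) (hpq.mul_right _)), h10, ← hP]
        rw [sum_congr rfl this, ← sum_filter, sum_const, nsmul_eq_mul, hcX, mul_comm]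
      rw [h4]
      have h6 : (Vz z)⁻¹ * ((1 - δ) * (m * VP P)) ≤ (Vz z)⁻¹ * cX g := mul_le_mul_of_nonneg_left h2 (inv_pos.2 hVz).le
      rw [abs_sub_comm]
      refine le_trans ?_ (le_abs_self _)
      by_cases hδ1 : δ ≤ 1
      · have h5 : (1 - δ) * (m * (Vz y)⁻¹) ≤ (Vz z)⁻¹ * ((1 - δ) * (m * VP P)) := by
          calc (1 - δ) * (m * (Vz y)⁻¹) ≤ (1 - δ) * (m * ((Vz z)⁻¹ * VP P)) := by
                apply mul_le_mul_of_nonneg_left _ (by linarith)
                exact mul_le_mul_of_nonneg_left hVV hm0.le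
            _ = _ := by ring
        have h7 : δ * m * 1 ≤ δ * m * (Vz y)⁻¹ := mul_le_mul_of_nonneg_left hVy1 hδm.le
        nlinarith
      · rw [not_le] at hδ1
        exfalso
        have h7 : (1 - 2 * δ) * (m * (Vz y)⁻¹) ≤ 0 :=
          mul_nonpos_of_nonpos_of_nonneg (by linarith) (by positivity)
        have h8 : 0 ≤ T g := by
          rw [hT]
          exact sum_nonneg fun _ _ => ArithmeticFunction.vonMangoldt_nonneg
        linarith
    have h2 : (B2.card : ℝ) * (δ * m) ≤ (δ * J) * (δ * m) := by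
      refine le_trans ?_ hR
      refine le_trans ?_ hbil
      calc (B2.card : ℝ) * (δ * m) = ∑ _g ∈ B2, δ * m := by rw [sum_const, nsmul_eq_mul]
        _ ≤ ∑ g ∈ B2, |∑ s ∈ S, (ArithmeticFunction.vonMangoldt (N g - s) - lamz z (N g - s))| := sum_le_sum h1
        _ ≤ _ := by
            apply sum_le_sum_of_subset_of_nonneg _ (fun _ _ _ => abs_nonneg _)
            intro g hg
            rw [hB2, mem_filter, mem_Icc] at hg
            rw [mem_range]
            omega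
    exact le_of_mul_le_mul_right h2 hδm
  have hsub : (Icc 1 J).filter (fun g => ((S.filter (fun s => (N g - s).Prime)).card : ℝ) *
      Real.log ((3 * x : ℕ) : ℝ) < (1 - 3 * δ) * (m * (Vz y)⁻¹)) ⊆ B1 ∪ B2 := by
    intro g hg
    rw [mem_filter] at hg
    obtain ⟨hg, hlt⟩ := hg
    by_contra hcon
    rw [mem_union] at hcon
    push Not at hcon
    obtain ⟨n1, n2⟩ := hcon
    have q1 : (1 - δ) * (m * VP P) ≤ cX g := by
      by_contra h
      push Not at h
      exact n1 (mem_filter.2 ⟨hg, h⟩)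
    have q2 : (1 - 2 * δ) * (m * (Vz y)⁻¹) ≤ T g := by
      by_contra h
      push Not at h
      exact n2 (mem_filter.2 ⟨hg, q1, h⟩)
    have hgJ := (mem_Icc.1 hg).2
    have hN3 : N g ≤ 3 * x := by
      rw [hN]
      have : M * q * g ≤ M * q * J := Nat.mul_le_mul_left _ hgJ
      omega
    have h3x : 1 ≤ 3 * x := by
      have := hxN g
      omega
    have q3 : ∑ s ∈ S, (if (N g - s).Prime then (0 : ℝ) else ArithmeticFunction.vonMangoldt (N g - s)) ≤ δ * m :=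
      (pp_one x (3 * x) (N g) h3x S hS (hxN g) hN3).trans hPP
    have q4 : T g ≤ ((S.filter (fun s => (N g - s).Prime)).card : ℝ) * Real.log ((3 * x : ℕ) : ℝ) +
        ∑ s ∈ S, (if (N g - s).Prime then (0 : ℝ) else ArithmeticFunction.vonMangoldt (N g - s)) := by
      rw [hT, card_eq_sum_ones, Nat.cast_sum, sum_mul, sum_filter, ← sum_add_distrib]
      apply sum_le_sum
      intro s hs
      by_cases hp : (N g - s).Prime
      · rw [if_pos hp, if_pos hp, ArithmeticFunction.vonMangoldt_apply_prime hp, Nat.cast_one, one_mul, add_zero]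
        apply Real.log_le_log (by exact_mod_cast hp.pos)
        exact_mod_cast (by omega : N g - s ≤ 3 * x)
      · rw [if_neg hp, if_neg hp, zero_add]
    have q5 : δ * m * 1 ≤ δ * m * (Vz y)⁻¹ := mul_le_mul_of_nonneg_left hVy1 hδm.le
    nlinarith
  have h1 := card_le_card hsub
  have h2 : (B1 ∪ B2).card ≤ B1.card + B2.card := card_union_le _ _
  have h3 : (((Icc 1 J).filter (fun g => ((S.filter (fun s => (N g - s).Prime)).card : ℝ) *
      Real.log ((3 * x : ℕ) : ℝ) < (1 - 3 * δ) * (m * (Vz y)⁻¹))).card : ℝ) ≤ B1.card + B2.card := by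
    exact_mod_cast h1.trans h2
  linarith

end Pool.Agent.T2h83.UP
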