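import Pool.Agent.T2h83.AM.Main
import Pool.Agent.T2h83.AM.Mu1

/-!
Project UP (helper83): the primes in all the residue classes of almost all moduli, as seen from an arbitrary set: the
difference of the von Mangoldt function and of the sieve model, summed with arbitrary bounded weights.
-/

set_option autoImplicit false

namespace Pool.Agent.T2h83.UP

open Finset
open Pool.Agent.T2h83.AM
open Pool.Agent.R460.GS
open Pool.Agent.R460.GH
open Pool.Agent.H373R2.T7 (lamz Vz pz ev_L')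
open Pool.Agent.Y883.T3 (lsh)
open Pool.Agent.Y883.GJ

/-- **arbitrary weights**, all classes of almost all moduli -/
theorem univ (C A U : ℕ) : ∃ B : ℕ, ∀ E : ℕ, ∃ N₀ : ℕ, ∀ N : ℕ, N₀ ≤ N →
    ∀ z : ℕ, Real.log N ^ B ≤ z → (z : ℝ) ≤ Real.log N ^ E → ∀ Q : ℕ, (Q : ℝ) * Real.log N ^ B ≤ N →
    ∃ S : Finset ℕ, (S.card : ℝ) ≤ Q / Real.log N ^ A ∧ ∀ q ∈ Ioc Q (2 * Q), q ∉ S →
      ∀ c : ℕ, 1 ≤ c → c ≤ C → ∀ r : ℕ, r ≤ C * N → ∀ g : ℕ → ℂ, (∀ n, ‖g n‖ ≤ 1) →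
      ∑ v ∈ range (N / q + 1), ‖∑ n ∈ Icc 1 N, g n *
        ((ArithmeticFunction.vonMangoldt (c * n + (r + q * v)) - lamz z (c * n + (r + q * v)) : ℝ) : ℂ)‖ ≤
        ((N / q + 1 : ℕ) : ℝ) * (N / Real.log N ^ U) := by
  classical
  obtain ⟨U₀, hU₀⟩ : ∃ U₀, U₀ = U + A + 6 := ⟨_, rfl⟩
  obtain ⟨B, hB⟩ := err_A (2 * U₀) U₀
  obtain ⟨K, hK⟩ : ∃ K, K = 2 * C + 1 := ⟨_, rfl⟩
  refine ⟨B + 2 * U₀ + 12, fun E => ?_⟩
  obtain ⟨N₁, h1⟩ := hB E
  obtain ⟨N₃, h3⟩ := ev_L' (2 ^ (B + 2 * U₀ + 11) + Real.log K + 2 * K + 100)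
  refine ⟨N₁ + N₃ + 3, fun N hN z hz1 hz2 Q hQ => ?_⟩
  have hN1 : 1 ≤ N := by omega
  have hN0 : (0 : ℝ) < N := by exact_mod_cast hN1
  have hK1 : (1 : ℝ) ≤ K := by exact_mod_cast (by omega : 1 ≤ K)
  have hK0 : (0 : ℝ) < K := by linarith
  obtain ⟨M, hM⟩ : ∃ M, M = K * N := ⟨_, rfl⟩
  have hMN : N ≤ M := by rw [hM]; exact Nat.le_mul_of_pos_left _ (by omega)
  have hM0 : (0 : ℝ) < M := by exact_mod_cast (by omega : 0 < M)
  have hMr : (M : ℝ) = K * N := by rw [hM]; push_cast; ring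
  have hLM : Real.log M = Real.log K + Real.log N := by
    rw [hMr, Real.log_mul hK0.ne' hN0.ne']
  have hlK : 0 ≤ Real.log K := Real.log_natCast_nonneg K
  have hLbig := h3 N (by omega)
  have hcast : (2 : ℝ) ^ (B + 2 * U₀ + 11) ≥ 1 := one_le_pow₀ (by norm_num)
  obtain ⟨LM, hLMd⟩ : ∃ LM, LM = Real.log (M : ℝ) := ⟨_, rfl⟩
  obtain ⟨L, hLd⟩ : ∃ L, L = Real.log (N : ℝ) := ⟨_, rfl⟩
  have h1M := h1 M (by omega) z
  rw [← hLMd] at h1M
  rw [← hLMd, ← hLd] at hLM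
  rw [← hLd] at hLbig hz1 hz2 hQ ⊢
  have hL100 : 100 ≤ L := by linarith
  have hL0 : 0 < L := by linarith
  have hL1 : 1 ≤ L := by linarith
  have hLK : 2 * K ≤ L := by linarith
  have hLLM : L ≤ LM := by linarith
  have hLM0 : 0 < LM := by linarith
  have hLM2 : LM ≤ 2 * L := by linarith
  have hpow2 : ∀ j, j ≤ B + 2 * U₀ + 11 → LM ^ j ≤ L ^ (j + 1) := by
    intro j hj
    calc LM ^ j ≤ (2 * L) ^ j := pow_le_pow_left₀ hLM0.le hLM2 j
      _ = 2 ^ j * L ^ j := by rw [mul_pow]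
      _ ≤ L * L ^ j := by
          apply mul_le_mul_of_nonneg_right _ (by positivity)
          have : (2 : ℝ) ^ j ≤ 2 ^ (B + 2 * U₀ + 11) := pow_le_pow_right₀ (by norm_num) hj
          linarith
      _ = L ^ (j + 1) := by ring
  obtain ⟨r', hPar, hsum, hms⟩ := h1M ((hpow2 B (by omega)).trans ((pow_le_pow_right₀ hL1 (by omega)).trans hz1))
    (hz2.trans (pow_le_pow_left₀ hL0.le hLLM E))
  have hcB := hms Q (by
    calc (Q : ℝ) * LM ^ (2 * U₀ + 11) ≤ Q * L ^ (2 * U₀ + 11 + 1) :=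
          mul_le_mul_of_nonneg_left (hpow2 _ (by omega)) (Nat.cast_nonneg _)
      _ ≤ Q * L ^ (B + 2 * U₀ + 12) := by
          apply mul_le_mul_of_nonneg_left (pow_le_pow_right₀ hL1 (by omega)) (Nat.cast_nonneg _)
      _ ≤ N := hQ
      _ ≤ M := by exact_mod_cast hMN)
  refine ⟨badq M (FF z r') Q ((M : ℝ) ^ 2 / LM ^ (2 * U₀)), ?_, ?_⟩
  · refine hcB.trans ?_
    apply div_le_div_of_nonneg_left (Nat.cast_nonneg _) (by positivity)
    calc L ^ A ≤ L ^ (2 * U₀) := pow_le_pow_right₀ hL1 (by omega)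
      _ ≤ LM ^ (2 * U₀) := pow_le_pow_left₀ hL0.le hLLM _
  intro q hqQ hqS c hc hcC r hr g hg
  have hq1 : 1 ≤ q := by rw [mem_Ioc] at hqQ; omega
  have : NeZero q := ⟨by omega⟩
  have hgoodq : ∀ β : ℝ, ∑ t ∈ range q, ‖sm M (FF z r') (β + t / q)‖ ^ 2 ≤ (M : ℝ) ^ 2 / LM ^ (2 * U₀) := by
    intro β
    by_contra hcon
    rw [not_le] at hcon
    apply hqS
    unfold badq
    rw [mem_filter]
    exact ⟨hqQ, β, hcon⟩
  obtain ⟨J, hJ⟩ : ∃ J, J = N / q + 1 := ⟨_, rfl⟩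
  rw [← hJ]
  have hJ0 : (0 : ℝ) ≤ J := Nat.cast_nonneg _
  have hcMr : c * N + N + r ≤ M := by
    have q1 : c * N ≤ C * N := Nat.mul_le_mul_right _ hcC
    have q2 : K * N = C * N + C * N + N := by rw [hK]; ring
    omega
  have e1 := one_formC (c := c) (N := N) (M := M) (q := q) (r := r) hc hN1 hcMr hJ (FF z r') _ hgoodq g hg
  have e2 : Real.sqrt ((M : ℝ) ^ 2 / LM ^ (2 * U₀)) = M / LM ^ U₀ := by
    have : (M : ℝ) ^ 2 / LM ^ (2 * U₀) = (M / LM ^ U₀) ^ 2 := by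
      rw [div_pow, ← pow_mul]
      ring_nf
    rw [this, Real.sqrt_sq (by positivity)]
  rw [e2] at e1
  have e3 : ∀ v ∈ range J, ‖∑ n ∈ Icc 1 N, g n *
      ((ArithmeticFunction.vonMangoldt (c * n + (r + q * v)) - lamz z (c * n + (r + q * v)) : ℝ) : ℂ)‖ ≤
      ‖∑ n ∈ Icc 1 N, g n * FF z r' (c * n + (r + q * v))‖ + M / LM ^ U₀ := by
    intro v hv
    rw [mem_range] at hv
    have e4 : ∑ n ∈ Icc 1 N, g n *
        ((ArithmeticFunction.vonMangoldt (c * n + (r + q * v)) - lamz z (c * n + (r + q * v)) : ℝ) : ℂ) =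
        ∑ n ∈ Icc 1 N, g n * FF z r' (c * n + (r + q * v)) -
        ∑ n ∈ Icc 1 N, g n * ((lamz z (c * n + (r + q * v)) - lsh z r' (c * n + (r + q * v)) : ℝ) : ℂ) := by
      rw [← sum_sub_distrib]
      refine sum_congr rfl fun n _ => ?_
      unfold FF
      push_cast
      ring
    rw [e4]
    refine (norm_sub_le _ _).trans (add_le_add le_rfl ?_)
    refine (norm_sum_le _ _).trans ?_
    have hqv : q * v ≤ N := by
      have e1 : q * v ≤ q * (N / q) := Nat.mul_le_mul_left q (by omega)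
      exact e1.trans (Nat.mul_div_le N q)
    calc ∑ n ∈ Icc 1 N, ‖g n * ((lamz z (c * n + (r + q * v)) - lsh z r' (c * n + (r + q * v)) : ℝ) : ℂ)‖
        ≤ ∑ n ∈ Icc 1 N, |lamz z (c * n + (r + q * v)) - lsh z r' (c * n + (r + q * v))| := by
          refine sum_le_sum fun n _ => ?_
          rw [norm_mul, Complex.norm_real, Real.norm_eq_abs]
          exact mul_le_of_le_one_left (abs_nonneg _) (hg n)
      _ = ∑ m ∈ (Icc 1 N).image (fun n => c * n + (r + q * v)), |lamz z m - lsh z r' m| := by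
          rw [sum_image]
          intro a _ b _ hab
          have h5 : c * a = c * b := by
            simp only at hab
            omega
          exact Nat.eq_of_mul_eq_mul_left (by omega) h5
      _ ≤ ∑ m ∈ Icc 1 M, |lamz z m - lsh z r' m| := by
          apply sum_le_sum_of_subset_of_nonneg _ (fun _ _ _ => abs_nonneg _)
          intro m hm
          rw [mem_image] at hm
          obtain ⟨n, hn, rfl⟩ := hm
          rw [mem_Icc] at hn ⊢
          have e5 : c * n ≤ c * N := Nat.mul_le_mul_left _ hn.2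
          have e6 : 1 ≤ c * n := Nat.mul_pos (by omega) (by omega)
          constructor <;> omega
      _ ≤ M / LM ^ U₀ := hsum
  refine (sum_le_sum e3).trans ?_
  rw [sum_add_distrib, sum_const, card_range, nsmul_eq_mul]
  have e5 : (M : ℝ) / LM ^ U₀ ≤ N / L ^ U / 2 := by
    have q1 : L ^ (U + 1) ≤ LM ^ U₀ := (pow_le_pow_right₀ hL1 (by omega)).trans (pow_le_pow_left₀ hL0.le hLLM _)
    rw [div_div, div_le_div_iff₀ (by positivity) (by positivity), hMr]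
    calc (K : ℝ) * N * (L ^ U * 2) = N * ((2 * K) * L ^ U) := by ring
      _ ≤ N * (L * L ^ U) := by gcongr
      _ = N * L ^ (U + 1) := by ring
      _ ≤ N * LM ^ U₀ := by gcongr
  calc _ ≤ J * (M / LM ^ U₀) + J * (M / LM ^ U₀) := add_le_add e1 le_rfl
    _ = J * (2 * (M / LM ^ U₀)) := by ring
    _ ≤ J * (N / L ^ U) := by
        apply mul_le_mul_of_nonneg_left _ hJ0
        linarith

end Pool.Agent.T2h83.UP
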