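import Pool.Agent.T2h83.UP.Asm
import Pool.Agent.T2h83.UP.Diff

/-!
Project UP (helper83): for almost all moduli and all residue classes almost all members are `M n = s + p`, `s` in a given set
of primes.
-/

set_option autoImplicit false

namespace Pool.Agent.T2h83.UP

open Finset
open Pool.Agent.H373R2.T7 (Vz pz mem_pz Vz_pos Vz_le_one lamz ev_L' ev_log')
open Pool.Agent.Y877.SX (mid mem_mid primorial_le_log)

lemma dvd_dist (p s t w D : ℕ) (hs : s ≤ D) (ht : t ≤ D) (h1 : p ∣ D - s + w) (h2 : p ∣ D - t + w) :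
    p ∣ Nat.dist s t * (s + t) := by
  wlog hst : s ≤ t generalizing s t with H
  · have := H t s ht hs h2 h1 (by omega)
    rwa [Nat.dist_comm, add_comm t s] at this
  rw [Nat.dist_eq_sub_of_le hst]
  have h3 : p ∣ (D - s + w) - (D - t + w) := Nat.dvd_sub h1 h2
  have h4 : (D - s + w) - (D - t + w) = t - s := by omega
  rw [h4] at h3
  exact h3.mul_right _

open Classical in
theorem cls (A W : ℕ) (ε : ℝ) (hε : 0 < ε) (hε1 : ε ≤ 1) : ∃ K₀ : ℕ, ∀ K₁ : ℕ, ∃ B x₀ : ℕ, ∀ x : ℕ, x₀ ≤ x →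
    ∀ y : ℕ, K₀ * Real.log (Real.log x) ≤ y → (y : ℝ) ≤ K₁ * Real.log (Real.log x) →
    ∀ Q : ℕ, (Q : ℝ) * Real.log x ^ B ≤ x →
    ∃ X : Finset ℕ, (X.card : ℝ) ≤ Q / Real.log x ^ W ∧ ∀ q ∈ Ioc Q (2 * Q), q ∉ X →
      ∀ r : ℕ, (∀ p : ℕ, p.Prime → y < p → (p : ℝ) ≤ Real.log x ^ B → p ∣ q → p ∣ r) →
      ∀ S : Finset ℕ, S ⊆ Icc 1 x → (∀ s ∈ S, s.Prime) → (x : ℝ) ≤ S.card * Real.log x ^ A →
      (((Icc 1 (2 * x)).filter (fun n => x < primorial y * n ∧ primorial y * n ≤ 2 * x ∧ n ≡ r [MOD q] ∧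
        ((S.filter (fun s => (primorial y * n - s).Prime)).card : ℝ) <
          (1 - ε) * (S.card / (Vz y * Real.log x)))).card : ℝ) ≤ ε * (x / (primorial y * q)) := by
  obtain ⟨δ, hδd⟩ : ∃ δ : ℝ, δ = ε / 16 := ⟨_, rfl⟩
  have hδ : 0 < δ := by rw [hδd]; linarith
  have hδ1 : 16 * δ ≤ 1 := by rw [hδd]; linarith
  obtain ⟨K0, hK01, hr⟩ := rough (A + 1) δ δ hδ (by linarith) hδ (by linarith)
  refine ⟨K0, fun K1 => ?_⟩
  obtain ⟨B₁, hB₁⟩ := univ 1 (W + 2 * K1) (A + 3)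
  obtain ⟨T, x1, hx1⟩ := hr (B₁ + 3)
  obtain ⟨x2, hx2⟩ := hB₁ (B₁ + 3)
  obtain ⟨B, hB⟩ : ∃ B, B = B₁ + T + 2 * K1 + 6 := ⟨_, rfl⟩
  obtain ⟨x3, hx3⟩ := ev_L' (Real.exp 1 + K1 + 100 + 2 / δ ^ 2 + 4 / δ)
  obtain ⟨x4, hx4⟩ := ev_log' (B₁ + A + 5) (8 / δ)
  refine ⟨B, x1 + x2 + x3 + x4 + 3, fun x hx y hy1 hy2 Q hQ => ?_⟩
  have hL := hx3 x (by omega)
  have hL4 := hx4 x (by omega)
  have a1 := hx1 x (by omega)
  have a2 := hx2 x (by omega)
  have hx1' : 1 ≤ x := by omega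
  have hxr : (1 : ℝ) ≤ x := by exact_mod_cast hx1'
  have hx0 : (0 : ℝ) < x := by linarith
  obtain ⟨L, hLd⟩ : ∃ L, L = Real.log (x : ℝ) := ⟨_, rfl⟩
  rw [← hLd] at hL hL4 a1 a2 hy1 hy2 hQ ⊢
  have hd2 : 0 < 2 / δ ^ 2 := by positivity
  have hd1 : 0 < 4 / δ := by positivity
  have he : 0 < Real.exp 1 := Real.exp_pos 1
  have hK1r : (0 : ℝ) ≤ K1 := Nat.cast_nonneg _
  have hLe : Real.exp 1 ≤ L := by linarith
  have hLK : (K1 : ℝ) ≤ L := by linarith
  have hL100 : 100 ≤ L := by linarith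
  have hL0 : 0 < L := by linarith
  have hL1 : 1 ≤ L := by linarith
  have hLδ2 : 2 ≤ L * δ ^ 2 := by
    have : 2 / δ ^ 2 ≤ L := by linarith
    rwa [div_le_iff₀ (by positivity)] at this
  have hLδ : 4 ≤ L * δ := by
    have : 4 / δ ≤ L := by linarith
    rwa [div_le_iff₀ hδ] at this
  have hlL : 1 ≤ Real.log L := by
    rw [← Real.log_exp 1]
    exact Real.log_le_log he hLe
  -- the primorial
  obtain ⟨M, hMd⟩ : ∃ M, M = primorial y := ⟨_, rfl⟩
  have hML : (M : ℝ) ≤ L ^ (2 * K1) := by rw [hMd]; exact primorial_le_log K1 y L hLe hy2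
  have hM1 : 1 ≤ M := by rw [hMd]; exact primorial_pos y
  have hM0 : (0 : ℝ) < M := by exact_mod_cast hM1
  have hMp : ∀ p : ℕ, p.Prime → p ≤ y → p ∣ M := fun p hp hpy => by
    rw [hMd]
    exact hp.dvd_primorial_iff.2 hpy
  rw [← hMd]
  -- z
  obtain ⟨z, hzd⟩ : ∃ z, z = ⌈L ^ (B₁ + 2)⌉₊ := ⟨_, rfl⟩
  have hz1 : L ^ (B₁ + 2) ≤ z := by rw [hzd]; exact Nat.le_ceil _
  have hz2 : (z : ℝ) ≤ L ^ (B₁ + 3) := by
    have h1 : (z : ℝ) < L ^ (B₁ + 2) + 1 := by rw [hzd]; exact Nat.ceil_lt_add_one (by positivity)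
    have h2 : L ^ (B₁ + 3) = L ^ (B₁ + 2) * L := pow_succ _ _
    have h3 : 1 ≤ L ^ (B₁ + 2) := one_le_pow₀ hL1
    rw [h2]
    nlinarith
  have hyz : y ≤ z := by
    have hy3 : (y : ℝ) ≤ z := by
      have h1 : Real.log L ≤ L := (Real.log_le_sub_one_of_pos hL0).trans (by linarith)
      calc (y : ℝ) ≤ K1 * Real.log L := hy2
        _ ≤ L * L := mul_le_mul hLK h1 (by linarith) hL0.le
        _ = L ^ 2 := by ring
        _ ≤ L ^ (B₁ + 2) := pow_le_pow_right₀ hL1 (by omega)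
        _ ≤ z := hz1
    exact_mod_cast hy3
  -- the bad moduli
  obtain ⟨S'', s1, s2⟩ := a2 z ((pow_le_pow_right₀ hL1 (by omega)).trans hz1) hz2 (M * Q) (by
    push_cast
    calc (M : ℝ) * Q * L ^ B₁ ≤ L ^ (2 * K1) * Q * L ^ B₁ := by gcongr
      _ = Q * L ^ (2 * K1 + B₁) := by rw [pow_add]; ring
      _ ≤ Q * L ^ B := by
          gcongr
          omega
      _ ≤ x := hQ)
  refine ⟨(Ioc Q (2 * Q)).filter (fun q => M * q ∈ S''), ?_, fun q hqQ hqX r hr' S hS hSp hSc => ?_⟩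
  · have e1 : (((Ioc Q (2 * Q)).filter (fun q => M * q ∈ S'')).card : ℝ) ≤ S''.card := by
      have : ((Ioc Q (2 * Q)).filter (fun q => M * q ∈ S'')).card ≤ S''.card := by
        apply card_le_card_of_injOn (fun q => M * q)
        · intro q hq
          exact (mem_filter.1 (mem_coe.1 hq)).2
        · intro a _ b _ hab
          exact Nat.eq_of_mul_eq_mul_left hM1 hab
      exact_mod_cast this
    refine e1.trans (s1.trans ?_)
    push_cast
    rw [div_le_div_iff₀ (by positivity) (by positivity)]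
    calc (M : ℝ) * Q * L ^ W ≤ L ^ (2 * K1) * Q * L ^ W := by gcongr
      _ = Q * L ^ (W + 2 * K1) := by rw [pow_add]; ring
  have hq1 : 1 ≤ q := by rw [mem_Ioc] at hqQ; omega
  have hq0 : (0 : ℝ) < q := by exact_mod_cast hq1
  have hMq1 : 1 ≤ M * q := Nat.mul_pos hM1 hq1
  have hMqQ : M * q ∈ Ioc (M * Q) (2 * (M * Q)) := by
    rw [mem_Ioc] at hqQ ⊢
    constructor
    · exact Nat.mul_lt_mul_of_pos_left hqQ.1 hM1
    · calc M * q ≤ M * (2 * Q) := Nat.mul_le_mul_left _ hqQ.2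
        _ = _ := by ring
  have hMqS : M * q ∉ S'' := fun h => hqX (mem_filter.2 ⟨hqQ, h⟩)
  -- sizes
  have hMqx : (M : ℝ) * q * L ^ (T + 5) ≤ x := by
    have h1 : (q : ℝ) ≤ 2 * Q := by exact_mod_cast (mem_Ioc.1 hqQ).2
    calc (M : ℝ) * q * L ^ (T + 5) ≤ L ^ (2 * K1) * (2 * Q) * L ^ (T + 5) := by gcongr
      _ ≤ L ^ (2 * K1) * (L * Q) * L ^ (T + 5) := by gcongr; linarith
      _ = Q * L ^ (2 * K1 + T + 6) := by rw [show 2 * K1 + T + 6 = 2 * K1 + 1 + (T + 5) by ring, pow_add, pow_add]; ring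
      _ ≤ Q * L ^ B := by
          gcongr
          omega
      _ ≤ x := hQ
  obtain ⟨J, hJ⟩ : ∃ J, J = x / (M * q) := ⟨_, rfl⟩
  have hJx : (J : ℝ) ≤ x / (M * q) := by
    rw [hJ]
    refine Nat.cast_div_le.trans (le_of_eq ?_)
    push_cast
    rfl
  have hJL : L ^ (T + 4) ≤ J := by
    have h1 : (x : ℝ) < (M * q : ℕ) * ((J + 1 : ℕ) : ℝ) := by
      rw [hJ]
      exact_mod_cast Nat.lt_mul_div_succ x hMq1
    push_cast at h1
    have h2 : L ^ (T + 5) < (J : ℝ) + 1 := by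
      by_contra hcon
      rw [not_lt] at hcon
      have : (M : ℝ) * q * (J + 1) ≤ M * q * L ^ (T + 5) := mul_le_mul_of_nonneg_left hcon (by positivity)
      linarith
    have h3 : L ^ (T + 5) = L ^ (T + 4) * L := pow_succ _ _
    have h4 : 1 ≤ L ^ (T + 4) := one_le_pow₀ hL1
    nlinarith
  have hJ1 : (1 : ℝ) ≤ J := (one_le_pow₀ hL1).trans hJL
  have hJδ : 1 ≤ δ * J := by
    have : L ≤ J := by
      calc L = L ^ 1 := (pow_one _).symm
        _ ≤ L ^ (T + 4) := pow_le_pow_right₀ hL1 (by omega)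
        _ ≤ J := hJL
    nlinarith
  -- the first member
  obtain ⟨a, ha⟩ : ∃ a, a = x / M + 1 := ⟨_, rfl⟩
  obtain ⟨n₁, hn₁⟩ : ∃ n₁, n₁ = a + (r + (q - 1) * a) % q := ⟨_, rfl⟩
  have hmod : n₁ ≡ r [MOD q] := by
    have h1 : (r + (q - 1) * a) % q ≡ r + (q - 1) * a [MOD q] := Nat.mod_modEq _ _
    have h2 : a + (r + (q - 1) * a) = r + q * a := by
      obtain ⟨q', rfl⟩ : ∃ q', q = q' + 1 := ⟨q - 1, by omega⟩
      rw [Nat.add_sub_cancel]
      ring
    have h3 : n₁ ≡ a + (r + (q - 1) * a) [MOD q] := by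
      rw [hn₁]
      exact Nat.ModEq.add_left a h1
    rw [h2] at h3
    refine h3.trans ?_
    have : r + q * a ≡ r + 0 [MOD q] := Nat.ModEq.add_left r ((Nat.modEq_zero_iff_dvd).2 (dvd_mul_right q a))
    simpa using this
  have hn₁lt : n₁ < a + q := by
    rw [hn₁]
    have := Nat.mod_lt (r + (q - 1) * a) (by omega : q > 0)
    omega
  have hn₁ge : a ≤ n₁ := by rw [hn₁]; exact Nat.le_add_right _ _
  have hxMa : x < M * a := by
    rw [ha]
    exact Nat.lt_mul_div_succ x hM1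
  have hxn1 : x < M * n₁ := hxMa.trans_le (Nat.mul_le_mul_left _ hn₁ge)
  have hn1x : M * n₁ ≤ x + M * q := by
    have h1 : M * n₁ ≤ M * (x / M + q) := Nat.mul_le_mul_left _ (by omega)
    have h2 := Nat.mul_div_le x M
    rw [mul_add] at h1
    omega
  have hMqJ : M * q * J ≤ x := by rw [hJ]; exact Nat.mul_div_le x (M * q)
  have hMqxN : M * q ≤ x := by
    have hJ1' : 1 ≤ J := by exact_mod_cast hJ1
    calc M * q = M * q * 1 := (mul_one _).symm
      _ ≤ M * q * J := Nat.mul_le_mul_left _ hJ1'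
      _ ≤ x := hMqJ
  -- the set without its small elements
  obtain ⟨S', hS'⟩ : ∃ S', S' = S.filter (fun s => z < s) := ⟨_, rfl⟩
  have hS'S : S' ⊆ S := by rw [hS']; exact filter_subset _ _
  have hSc1 : (S.card : ℝ) ≤ S'.card + z := by
    have h1 : S ⊆ S' ∪ Icc 1 z := by
      intro s hs
      rw [mem_union, hS', mem_filter, mem_Icc]
      by_cases h : z < s
      · exact Or.inl ⟨hs, h⟩
      · exact Or.inr ⟨(mem_Icc.1 (hS hs)).1, by omega⟩
    have h2 := (card_le_card h1).trans (card_union_le _ _)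
    rw [Nat.card_Icc, Nat.add_sub_cancel] at h2
    exact_mod_cast h2
  have hzS : (z : ℝ) ≤ δ * S.card := by
    -- `z L^A ≤ δ x`
    have h1 : 8 / δ * L ^ (B₁ + A + 5) ≤ x := by
      refine hL4.trans ?_
      have : 1 ≤ √(x : ℝ) := by rw [← Real.sqrt_one]; exact Real.sqrt_le_sqrt hxr
      calc √(x : ℝ) = √(x : ℝ) * 1 := (mul_one _).symm
        _ ≤ √(x : ℝ) * √(x : ℝ) := by gcongr
        _ = x := Real.mul_self_sqrt hx0.le
    have h2 : z * L ^ A ≤ (δ * S.card) * L ^ A := by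
      calc (z : ℝ) * L ^ A ≤ L ^ (B₁ + 3) * L ^ A := by gcongr
        _ = L ^ (B₁ + A + 3) := by rw [← pow_add]; congr 1; omega
        _ ≤ L ^ (B₁ + A + 5) := pow_le_pow_right₀ hL1 (by omega)
        _ ≤ 8 * L ^ (B₁ + A + 5) := by
            have : 0 ≤ L ^ (B₁ + A + 5) := by positivity
            linarith
        _ = δ * (8 / δ * L ^ (B₁ + A + 5)) := by field_simp
        _ ≤ δ * x := by gcongr
        _ ≤ δ * (S.card * L ^ A) := by gcongr
        _ = _ := by ring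
    exact le_of_mul_le_mul_right h2 (by positivity)
  obtain ⟨m, hm⟩ : ∃ m : ℝ, m = S'.card := ⟨_, rfl⟩
  have hmS : (1 - δ) * S.card ≤ m := by
    rw [hm]
    linarith
  have hS0 : (0 : ℝ) < S.card := by
    by_contra h
    push Not at h
    have : (S.card : ℝ) * L ^ A ≤ 0 := mul_nonpos_of_nonpos_of_nonneg h (by positivity)
    linarith
  have hm0 : 0 < m := lt_of_lt_of_le (by
    apply mul_pos _ hS0
    linarith) hmS
  have hmx : (x : ℝ) ≤ m * L ^ (A + 1) := by
    calc (x : ℝ) ≤ S.card * L ^ A := hSc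
      _ ≤ (2 * m) * L ^ A := by
          gcongr
          nlinarith
      _ ≤ (L * m) * L ^ A := by gcongr; linarith
      _ = _ := by ring
  have hS'x : S' ⊆ Icc 1 x := hS'S.trans hS
  -- roughness
  have hrough := a1 y z hy1 hyz hz2 S' hS'x (by rw [← hm]; exact hmx) ((mid y z).filter (fun p => ¬ p ∣ q))
    (filter_subset _ _) (M * q) (fun p hp hd => by
      rw [mem_filter] at hp
      rcases (mem_mid.1 hp.1).2.2.dvd_mul.1 hd with h | h
      · rw [hMd, (mem_mid.1 hp.1).2.2.dvd_primorial_iff] at h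
        have := (mem_mid.1 hp.1).1
        omega
      · exact hp.2 h) (fun s => M * n₁ - s) (fun s hs t ht p w h1 h2 => by
      have h3 := (mem_Icc.1 (hS'x hs)).2
      have h4 := (mem_Icc.1 (hS'x ht)).2
      exact dvd_dist p s t w (M * n₁) (by omega) (by omega) h1 h2) J ((pow_le_pow_right₀ hL1 (by omega)).trans hJL)
  rw [← hm] at hrough
  -- the bilinear sum
  have hr0 : M * n₁ - x - 1 ≤ 1 * x := by omega
  have hu := s2 (M * q) hMqQ hMqS 1 le_rfl le_rfl (M * n₁ - x - 1) hr0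
    (fun n => if x + 1 - n ∈ S' then 1 else 0) (fun n => by
      split_ifs <;> simp)
  rw [← hJ] at hu
  have hbil : ∑ v ∈ range (J + 1), |∑ s ∈ S', (ArithmeticFunction.vonMangoldt (M * n₁ + M * q * v - s) -
      lamz z (M * n₁ + M * q * v - s))| ≤ ((J + 1 : ℕ) : ℝ) * (x / L ^ (A + 3)) := by
    refine le_trans (le_of_eq ?_) hu
    refine sum_congr rfl fun v _ => ?_
    rw [← Real.norm_eq_abs, ← Complex.norm_real]
    congr 1
    push_cast
    have e1 : ∀ n ∈ Icc 1 x, (if x + 1 - n ∈ S' then (1 : ℂ) else 0) *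
        (((ArithmeticFunction.vonMangoldt (1 * n + (M * n₁ - x - 1 + M * q * v)) : ℝ) : ℂ) -
          ((lamz z (1 * n + (M * n₁ - x - 1 + M * q * v)) : ℝ) : ℂ)) =
        if x + 1 - n ∈ S' then (((ArithmeticFunction.vonMangoldt (1 * n + (M * n₁ - x - 1 + M * q * v)) : ℝ) : ℂ) -
          ((lamz z (1 * n + (M * n₁ - x - 1 + M * q * v)) : ℝ) : ℂ)) else 0 := by
      intro n _
      split_ifs
      · rw [one_mul]
      · rw [zero_mul]
    rw [sum_congr rfl e1, ← sum_filter]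
    refine sum_bij' (fun s _ => x + 1 - s) (fun n _ => x + 1 - n) ?_ ?_ ?_ ?_ ?_
    · intro s hs
      have h3 := mem_Icc.1 (hS'x hs)
      rw [mem_filter, mem_Icc]
      refine ⟨⟨by omega, by omega⟩, ?_⟩
      have : x + 1 - (x + 1 - s) = s := by omega
      rw [this]
      exact hs
    · intro n hn
      exact (mem_filter.1 hn).2
    · intro s hs
      have h3 := mem_Icc.1 (hS'x hs)
      omega
    · intro n hn
      have h3 := mem_Icc.1 (mem_filter.1 hn).1
      omega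
    · intro s hs
      have h3 := mem_Icc.1 (hS'x hs)
      have : 1 * (x + 1 - s) + (M * n₁ - x - 1 + M * q * v) = M * n₁ + M * q * v - s := by omega
      rw [this]
  have hlog3 : Real.log ((3 * x : ℕ) : ℝ) ≤ (1 + δ) * L := by
    push_cast
    rw [Real.log_mul (by norm_num) hx0.ne', ← hLd]
    have h1 : Real.log 3 ≤ 2 := by
      have := Real.log_le_sub_one_of_pos (show (0 : ℝ) < 3 by norm_num)
      linarith
    nlinarith
  have hlog3' : 0 < Real.log ((3 * x : ℕ) : ℝ) := Real.log_pos (by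
    push_cast
    linarith)
  have key := asm S' x y z M q n₁ J δ m (((J + 1 : ℕ) : ℝ) * (x / L ^ (A + 3))) hδ hm.symm hm0 hyz hS'x
    (fun s hs => ⟨hSp s (hS'S hs), by rw [hS', mem_filter] at hs; exact hs.2⟩) hq1 hMp
    (fun p hp hpq => by
      rw [mem_mid] at hp
      have h1 := hr' p hp.2.2 hp.1 (by
        have : (p : ℝ) ≤ z := by exact_mod_cast hp.2.1
        exact this.trans (hz2.trans (pow_le_pow_right₀ hL1 (by omega)))) hpq
      have h2 : n₁ ≡ r [MOD p] := hmod.of_dvd hpq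
      exact (h2.dvd_iff (dvd_refl p)).2 h1) hxn1 (by omega) hrough hbil (by
      push_cast
      have h1 : (x : ℝ) / L ^ (A + 3) ≤ δ ^ 2 / 2 * m := by
        rw [div_le_iff₀ (by positivity)]
        calc (x : ℝ) ≤ m * L ^ (A + 1) := hmx
          _ = m * L ^ (A + 1) * 1 := (mul_one _).symm
          _ ≤ m * L ^ (A + 1) * (δ ^ 2 / 2 * L ^ 2) := by
              apply mul_le_mul_of_nonneg_left _ (by positivity)
              nlinarith
          _ = _ := by rw [show A + 3 = (A + 1) + 2 by ring, pow_add]; ring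
      calc ((J : ℝ) + 1) * (x / L ^ (A + 3)) ≤ (2 * J) * (δ ^ 2 / 2 * m) := by
            apply mul_le_mul (by linarith) h1 (by positivity) (by positivity)
        _ = _ := by ring) (by
      have h1 : √((3 * x : ℕ) : ℝ) ≤ 2 * √(x : ℝ) := by
        rw [show (2 : ℝ) * √(x : ℝ) = √((4 * x : ℝ)) by
          rw [Real.sqrt_mul (by norm_num), show (4 : ℝ) = 2 ^ 2 by norm_num, Real.sqrt_sq (by norm_num)]]
        apply Real.sqrt_le_sqrt
        push_cast
        linarith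
      have h2 : Real.log ((3 * x : ℕ) : ℝ) ≤ 2 * L := hlog3.trans (by nlinarith)
      have hsx : 0 < √(x : ℝ) := Real.sqrt_pos.2 hx0
      have h3 : 8 * L ^ (A + 2) ≤ δ * √(x : ℝ) := by
        rw [div_mul_eq_mul_div, div_le_iff₀ hδ] at hL4
        have : L ^ (A + 2) ≤ L ^ (B₁ + A + 5) := pow_le_pow_right₀ hL1 (by omega)
        nlinarith
      have h4 : (√(x : ℝ) * (8 * L)) * L ^ (A + 1) ≤ (δ * m) * L ^ (A + 1) := by
        calc (√(x : ℝ) * (8 * L)) * L ^ (A + 1) = √(x : ℝ) * (8 * L ^ (A + 2)) := by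
              rw [show A + 2 = (A + 1) + 1 by ring, pow_succ L (A + 1)]; ring
          _ ≤ √(x : ℝ) * (δ * √(x : ℝ)) := mul_le_mul_of_nonneg_left h3 hsx.le
          _ = δ * (√(x : ℝ) * √(x : ℝ)) := by ring
          _ = δ * x := by rw [Real.mul_self_sqrt hx0.le]
          _ ≤ δ * (m * L ^ (A + 1)) := mul_le_mul_of_nonneg_left hmx hδ.le
          _ = _ := by ring
      have h5 := le_of_mul_le_mul_right h4 (by positivity)
      calc 2 * √((3 * x : ℕ) : ℝ) * Real.log ((3 * x : ℕ) : ℝ) ≤ 2 * (2 * √(x : ℝ)) * (2 * L) := by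
            apply mul_le_mul (by linarith) h2 hlog3'.le (by positivity)
        _ = √(x : ℝ) * (8 * L) := by ring
        _ ≤ δ * m := h5)
  -- the exceptional members
  have hVy := Vz_pos y
  obtain ⟨Bad, hBad⟩ : ∃ Bad, Bad = (Icc 1 J).filter (fun g => ((S'.filter (fun s => (M * n₁ + M * q * g - s).Prime)).card : ℝ) *
      Real.log ((3 * x : ℕ) : ℝ) < (1 - 3 * δ) * (m * (Vz y)⁻¹)) := ⟨_, rfl⟩
  rw [← hBad] at key
  have hsub : (Icc 1 (2 * x)).filter (fun n => x < M * n ∧ M * n ≤ 2 * x ∧ n ≡ r [MOD q] ∧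
        ((S.filter (fun s => (M * n - s).Prime)).card : ℝ) < (1 - ε) * (S.card / (Vz y * L))) ⊆
      (insert 0 Bad).image (fun g => n₁ + q * g) := by
    intro n hn
    rw [mem_filter] at hn
    obtain ⟨-, h1, h2, h3, h4⟩ := hn
    have han : a ≤ n := by
      rw [ha]
      have : x / M < n := Nat.div_lt_of_lt_mul h1
      omega
    have h5 : n₁ ≡ n [MOD q] := hmod.trans h3.symm
    have h6 : n₁ ≤ n := by
      by_contra hcon
      rw [not_le] at hcon
      have h7 : q ∣ n₁ - n := (Nat.modEq_iff_dvd' hcon.le).1 h5.symm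
      have h8 := Nat.le_of_dvd (by omega) h7
      omega
    have h7 : q ∣ n - n₁ := (Nat.modEq_iff_dvd' h6).1 h5
    obtain ⟨g, hg⟩ := h7
    have hng : n = n₁ + q * g := by omega
    rw [mem_image]
    refine ⟨g, ?_, hng.symm⟩
    rw [mem_insert]
    by_cases hg0 : g = 0
    · exact Or.inl hg0
    right
    have hNn : M * n₁ + M * q * g = M * n := by rw [hng]; ring
    have hgJ : g ≤ J := by
      rw [hJ, Nat.le_div_iff_mul_le hMq1]
      have : g * (M * q) = M * q * g := by ring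
      rw [this]
      omega
    rw [hBad, mem_filter, mem_Icc, hNn]
    refine ⟨⟨by omega, hgJ⟩, ?_⟩
    by_contra hcon
    rw [not_lt] at hcon
    apply absurd h4
    rw [not_lt]
    have e1 : ((S'.filter (fun s => (M * n - s).Prime)).card : ℝ) ≤ ((S.filter (fun s => (M * n - s).Prime)).card : ℝ) := by
      exact_mod_cast card_le_card (filter_subset_filter _ hS'S)
    refine le_trans ?_ e1
    have e2 : (1 - ε) * (S.card / (Vz y * L)) * Real.log ((3 * x : ℕ) : ℝ) ≤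
        ((S'.filter (fun s => (M * n - s).Prime)).card : ℝ) * Real.log ((3 * x : ℕ) : ℝ) := by
      refine le_trans ?_ hcon
      calc (1 - ε) * (S.card / (Vz y * L)) * Real.log ((3 * x : ℕ) : ℝ) ≤ (1 - ε) * (S.card / (Vz y * L)) * ((1 + δ) * L) := by
            apply mul_le_mul_of_nonneg_left hlog3
            apply mul_nonneg (by linarith)
            positivity
        _ = ((1 - ε) * (1 + δ)) * (S.card * (Vz y)⁻¹) := by field_simp
        _ ≤ ((1 - 3 * δ) * (1 - δ)) * (S.card * (Vz y)⁻¹) := by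
            apply mul_le_mul_of_nonneg_right _ (by positivity)
            have : ε = 16 * δ := by rw [hδd]; ring
            rw [this]
            nlinarith
        _ = (1 - 3 * δ) * (((1 - δ) * S.card) * (Vz y)⁻¹) := by ring
        _ ≤ (1 - 3 * δ) * (m * (Vz y)⁻¹) := by
            apply mul_le_mul_of_nonneg_left _ (by linarith)
            exact mul_le_mul_of_nonneg_right hmS (inv_pos.2 hVy).le
    exact le_of_mul_le_mul_right e2 hlog3'
  have h1 := card_le_card hsub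
  have h2 : ((insert 0 Bad).image (fun g => n₁ + q * g)).card ≤ Bad.card + 1 := card_image_le.trans (card_insert_le _ _)
  have h3 : (((Icc 1 (2 * x)).filter (fun n => x < M * n ∧ M * n ≤ 2 * x ∧ n ≡ r [MOD q] ∧
        ((S.filter (fun s => (M * n - s).Prime)).card : ℝ) < (1 - ε) * (S.card / (Vz y * L)))).card : ℝ) ≤ Bad.card + 1 := by
    exact_mod_cast h1.trans h2
  refine h3.trans ?_
  have h4 : (Bad.card : ℝ) + 1 ≤ 3 * δ * J := by linarith
  refine h4.trans ?_
  have h5 : 0 ≤ (x : ℝ) / (M * q) := by positivity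
  calc 3 * δ * J ≤ ε * J := by
        apply mul_le_mul_of_nonneg_right _ (by linarith)
        rw [hδd]
        linarith
    _ ≤ ε * (x / (M * q)) := mul_le_mul_of_nonneg_left hJx hε.le

end Pool.Agent.T2h83.UP
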