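import Pool.Agent.N136.QL.FLC
import Pool.Agent.Y877.SxB
import Pool.Agent.Y877.SxC

/-!
Project UP (helper83): for almost all members of a short arithmetic progression the expected number of the elements of an
arbitrary set are free of medium primes.
-/

set_option autoImplicit false

namespace Pool.Agent.T2h83.UP

open Finset
open Pool.Agent.H373R2.T7 (Vz pz mem_pz Vz_pos Vz_le_one Vz_inv_small ev_L' ev_log')
open Pool.Agent.Y877.SX (mid mem_mid Vm Vm_pos Vm_le Vz_split fd fd_one fd_one' fd_mul fac_pos fac_le fac_inv_one one_le_prodR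
  FF FF_sum root_ex root_uniq few_one dvd_mod cheb)

/-- the product over a set of primes -/
noncomputable def VP (P : Finset ℕ) : ℝ := ∏ p ∈ P, (1 - 1 / (p : ℝ))

lemma dyad (z : ℕ) (hz : 2 ≤ z) : ∃ J : ℕ, z ≤ 2 ^ 2 ^ J ∧ 2 ^ 2 ^ J ≤ z ^ 2 := by
  have hex : ∃ J : ℕ, z ≤ 2 ^ 2 ^ J :=
    ⟨z, (Nat.lt_two_pow_self.trans (Nat.pow_lt_pow_right (by norm_num) Nat.lt_two_pow_self)).le⟩
  classical
  refine ⟨Nat.find hex, Nat.find_spec hex, ?_⟩
  rcases Nat.eq_zero_or_pos (Nat.find hex) with h | h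
  · rw [h]
    norm_num
    nlinarith
  · obtain ⟨j, hj⟩ : ∃ j, Nat.find hex = j + 1 := ⟨_, (Nat.succ_pred_eq_of_pos h).symm⟩
    have h1 := Nat.find_min hex (m := j) (by omega)
    rw [not_le] at h1
    rw [hj, pow_succ 2 j, pow_mul]
    exact Nat.pow_le_pow_left h1.le 2

/-- the error term -/
noncomputable def RR (C b z0 z : ℕ) : ℝ := (z0 : ℝ) ^ z0 * (2 * (z : ℝ) ^ 2 * ((z : ℝ) ^ 2) ^ (2 * (C * b)))

/-- the fundamental lemma -/
lemma cnt_fl : ∃ C : ℕ, 1 ≤ C ∧ ∀ (b z0 z G : ℕ) (P : Finset ℕ) (Om : ℕ → Finset ℕ), C ≤ b → C ≤ z0 → 2 ≤ z →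
    (∀ p ∈ P, p.Prime ∧ p ≤ z) → (∀ p ∈ P, Om p ⊆ range p) → (∀ p ∈ P, (Om p).card ≤ 8) →
    |(((Icc 1 G).filter (fun n => ∀ p ∈ P, n % p ∉ Om p)).card : ℝ) - G * ∏ p ∈ P, (1 - ((Om p).card : ℝ) / p)| ≤
      (1 / 2) ^ b * (G * ∏ p ∈ P, (1 - ((Om p).card : ℝ) / p)) + RR C b z0 z := by
  obtain ⟨C, hC, H⟩ := Pool.Agent.N136.QL.gen8
  refine ⟨C, hC, fun b z0 z G P Om hb hz0 hz hP hOm hOm8 => ?_⟩
  obtain ⟨J, hJ1, hJ2⟩ := dyad z hz
  have h1 := H b J z0 G P Om hb hz0 (fun p hp => ⟨(hP p hp).1, (hP p hp).2.trans hJ1⟩) hOm hOm8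
  have e1 : Ioc 0 G = Icc 1 G := by
    ext n
    rw [mem_Ioc, mem_Icc]
    omega
  rw [e1] at h1
  refine h1.trans (add_le_add le_rfl ?_)
  unfold RR
  apply mul_le_mul_of_nonneg_left _ (by positivity)
  have hJ3 : J < 2 ^ 2 ^ J := Nat.lt_two_pow_self.trans (Nat.pow_lt_pow_right (by norm_num) Nat.lt_two_pow_self)
  have hzr : (2 : ℝ) ≤ z := by exact_mod_cast hz
  have hJr : (J : ℝ) + 2 ≤ 2 * (z : ℝ) ^ 2 := by
    have h2 : (J : ℝ) + 1 ≤ (z : ℝ) ^ 2 := by exact_mod_cast (by omega : J + 1 ≤ z ^ 2)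
    nlinarith
  have hpw : ((2 ^ 2 ^ J : ℕ) : ℝ) ≤ (z : ℝ) ^ 2 := by exact_mod_cast hJ2
  have h3 : (((2 ^ 2 ^ J : ℕ) : ℝ) ^ (C * b)) ^ 2 ≤ ((z : ℝ) ^ 2) ^ (2 * (C * b)) := by
    calc (((2 ^ 2 ^ J : ℕ) : ℝ) ^ (C * b)) ^ 2 ≤ (((z : ℝ) ^ 2) ^ (C * b)) ^ 2 :=
          pow_le_pow_left₀ (by positivity) (pow_le_pow_left₀ (by positivity) hpw _) 2
      _ = ((z : ℝ) ^ 2) ^ (2 * (C * b)) := by rw [← pow_mul, mul_comm 2 (C * b)]
  exact mul_le_mul hJr h3 (by positivity) (by positivity)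

lemma RR_nonneg (C b z0 z : ℕ) : 0 ≤ RR C b z0 z := by
  unfold RR
  positivity

open Classical in
/-- one and two conditions -/
lemma cnt_two : ∃ C : ℕ, 1 ≤ C ∧ ∀ (b z0 y z G : ℕ) (P : Finset ℕ) (M v v' D : ℕ), C ≤ b → C ≤ z0 → 2 ≤ z →
    P ⊆ mid y z → (∀ p ∈ P, ¬ p ∣ M) → (∀ p ∈ P, ∀ g, p ∣ v + M * g → p ∣ v' + M * g → p ∣ D) →
    (1 - (1 / 2) ^ b) * (G * VP P) - RR C b z0 z ≤ (((Icc 1 G).filter (fun g => ∀ p ∈ P, ¬ p ∣ v + M * g)).card : ℝ) ∧
    (((Icc 1 G).filter (fun g => (∀ p ∈ P, ¬ p ∣ v + M * g) ∧ (∀ p ∈ P, ¬ p ∣ v' + M * g))).card : ℝ) ≤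
      (1 + (1 / 2) ^ b) * (G * (VP P ^ 2 * fd y z D)) + RR C b z0 z := by
  obtain ⟨C, hC, H⟩ := cnt_fl
  refine ⟨C, hC, fun b z0 y z G P M v v' D hb hz0 hz hPm hM hD => ?_⟩
  have hPp : ∀ p ∈ P, p.Prime ∧ p ≤ z := fun p hp => ⟨(mem_mid.1 (hPm hp)).2.2, (mem_mid.1 (hPm hp)).2.1⟩
  constructor
  · have h1 := H b z0 z G P (fun p => (range p).filter (fun r => p ∣ v + M * r)) hb hz0 hz hPp (fun p _ => filter_subset _ _)
      (fun p hp => (few_one p v M (hPp p hp).1 (hM p hp)).trans (by norm_num))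
    have e1 : ∏ p ∈ P, (1 - (((range p).filter (fun r => p ∣ v + M * r)).card : ℝ) / p) = VP P := by
      unfold VP
      refine prod_congr rfl fun p hp => ?_
      obtain ⟨r, hr, hd⟩ := root_ex p v M (hPp p hp).1 (hM p hp)
      have : ((range p).filter (fun r => p ∣ v + M * r)).card = 1 := by
        apply le_antisymm (few_one p v M (hPp p hp).1 (hM p hp))
        exact card_pos.2 ⟨r, mem_filter.2 ⟨mem_range.2 hr, hd⟩⟩
      rw [this]
      norm_num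
    have e2 : (Icc 1 G).filter (fun n => ∀ p ∈ P, n % p ∉ (range p).filter (fun r => p ∣ v + M * r)) =
        (Icc 1 G).filter (fun g => ∀ p ∈ P, ¬ p ∣ v + M * g) := by
      apply filter_congr
      intro n _
      constructor
      · intro h p hp hd
        apply h p hp
        rw [mem_filter, mem_range]
        exact ⟨Nat.mod_lt _ (hPp p hp).1.pos, (dvd_mod p v M n).1 hd⟩
      · intro h p hp hd
        rw [mem_filter] at hd
        exact h p hp ((dvd_mod p v M n).2 hd.2)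
    rw [e1, e2] at h1
    have := (abs_le.1 h1).1
    linarith
  · have hcard : ∀ p ∈ P, ((range p).filter (fun r => p ∣ v + M * r ∨ p ∣ v' + M * r)).card ≤ 2 := by
      intro p hp
      have h1 := few_one p v M (hPp p hp).1 (hM p hp)
      have h2 := few_one p v' M (hPp p hp).1 (hM p hp)
      rw [filter_or]
      exact (card_union_le _ _).trans (by omega)
    have h1 := H b z0 z G P (fun p => (range p).filter (fun r => p ∣ v + M * r ∨ p ∣ v' + M * r)) hb hz0 hz hPp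
      (fun p _ => filter_subset _ _) (fun p hp => (hcard p hp).trans (by norm_num))
    have e2 : (Icc 1 G).filter (fun n => ∀ p ∈ P, n % p ∉ (range p).filter (fun r => p ∣ v + M * r ∨ p ∣ v' + M * r)) =
        (Icc 1 G).filter (fun g => (∀ p ∈ P, ¬ p ∣ v + M * g) ∧ (∀ p ∈ P, ¬ p ∣ v' + M * g)) := by
      apply filter_congr
      intro n _
      constructor
      · intro h
        constructor
        · intro p hp hd
          apply h p hp
          rw [mem_filter, mem_range]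
          exact ⟨Nat.mod_lt _ (hPp p hp).1.pos, Or.inl ((dvd_mod p v M n).1 hd)⟩
        · intro p hp hd
          apply h p hp
          rw [mem_filter, mem_range]
          exact ⟨Nat.mod_lt _ (hPp p hp).1.pos, Or.inr ((dvd_mod p v' M n).1 hd)⟩
      · rintro ⟨ha, hb'⟩ p hp hd
        rw [mem_filter] at hd
        rcases hd.2 with hd | hd
        · exact ha p hp ((dvd_mod p v M n).2 hd)
        · exact hb' p hp ((dvd_mod p v' M n).2 hd)
    rw [e2] at h1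
    have h2 := (abs_le.1 h1).2
    have h3 : ∏ p ∈ P, (1 - (((range p).filter (fun r => p ∣ v + M * r ∨ p ∣ v' + M * r)).card : ℝ) / p) ≤
        VP P ^ 2 * fd y z D := by
      have h4 : ∏ p ∈ P.filter (fun p => p ∣ D), (1 - 1 / (p : ℝ))⁻¹ ≤ fd y z D := by
        unfold fd
        rw [← prod_sdiff (filter_subset_filter (fun p => p ∣ D) hPm)]
        have h5 : 0 ≤ ∏ p ∈ P.filter (fun p => p ∣ D), (1 - 1 / (p : ℝ))⁻¹ :=
          prod_nonneg fun p hp => (inv_pos.2 (fac_pos (hPp p (mem_filter.1 hp).1).1)).le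
        apply le_mul_of_one_le_left h5
        apply one_le_prodR
        intro p hp
        rw [mem_sdiff, mem_filter] at hp
        exact fac_inv_one (mem_mid.1 hp.1.1).2.2
      refine le_trans ?_ (mul_le_mul_of_nonneg_left h4 (sq_nonneg _))
      have e3 : VP P ^ 2 * ∏ p ∈ P.filter (fun p => p ∣ D), (1 - 1 / (p : ℝ))⁻¹ = ∏ p ∈ P, ((1 - 1 / (p : ℝ)) ^ 2 *
          (if p ∣ D then (1 - 1 / (p : ℝ))⁻¹ else 1)) := by
        unfold VP
        rw [prod_filter, ← prod_pow, ← prod_mul_distrib]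
      rw [e3]
      apply prod_le_prod
      · intro p hp
        have hpp := (hPp p hp).1
        have hp0 : (0 : ℝ) < p := by exact_mod_cast hpp.pos
        have : (((range p).filter (fun r => p ∣ v + M * r ∨ p ∣ v' + M * r)).card : ℝ) / p ≤ 1 := by
          rw [div_le_one hp0]
          have := (card_filter_le (range p) (fun r => p ∣ v + M * r ∨ p ∣ v' + M * r))
          rw [card_range] at this
          exact_mod_cast this
        linarith
      · intro p hp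
        have hpp := (hPp p hp).1
        have hp0 : (0 : ℝ) < p := by exact_mod_cast hpp.pos
        have hfp := fac_pos hpp
        obtain ⟨r1, hr1, hd1⟩ := root_ex p v M hpp (hM p hp)
        obtain ⟨r2, hr2, hd2⟩ := root_ex p v' M hpp (hM p hp)
        have m1 : r1 ∈ (range p).filter (fun r => p ∣ v + M * r ∨ p ∣ v' + M * r) :=
          mem_filter.2 ⟨mem_range.2 hr1, Or.inl hd1⟩
        have m2 : r2 ∈ (range p).filter (fun r => p ∣ v + M * r ∨ p ∣ v' + M * r) :=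
          mem_filter.2 ⟨mem_range.2 hr2, Or.inr hd2⟩
        by_cases hpD : p ∣ D
        · rw [if_pos hpD]
          have : (1 : ℝ) ≤ (((range p).filter (fun r => p ∣ v + M * r ∨ p ∣ v' + M * r)).card : ℝ) := by
            exact_mod_cast card_pos.2 ⟨r1, m1⟩
          have h5 : (1 - 1 / (p : ℝ)) ^ 2 * (1 - 1 / (p : ℝ))⁻¹ = 1 - 1 / (p : ℝ) := by
            field_simp
          rw [h5]
          gcongr
        · rw [if_neg hpD, mul_one]
          have hne : r1 ≠ r2 := by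
            intro h
            rw [← h] at hd2
            exact hpD (hD p hp r1 hd1 hd2)
          have : (2 : ℝ) ≤ (((range p).filter (fun r => p ∣ v + M * r ∨ p ∣ v' + M * r)).card : ℝ) := by
            have : 1 < ((range p).filter (fun r => p ∣ v + M * r ∨ p ∣ v' + M * r)).card := by
              rw [one_lt_card]
              exact ⟨r1, m1, r2, m2, hne⟩
            exact_mod_cast this
          have h5 : 2 / (p : ℝ) ≤ (((range p).filter (fun r => p ∣ v + M * r ∨ p ∣ v' + M * r)).card : ℝ) / p := by gcongr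
          have h6 : (1 - 1 / (p : ℝ)) ^ 2 = 1 - 2 / p + (1 / (p : ℝ)) ^ 2 := by ring
          rw [h6]
          have h7 : 0 ≤ (1 / (p : ℝ)) ^ 2 := by positivity
          linarith
    have hτ : (0 : ℝ) ≤ (1 / 2) ^ b := by positivity
    have h4 : (G : ℝ) * ∏ p ∈ P, (1 - (((range p).filter (fun r => p ∣ v + M * r ∨ p ∣ v' + M * r)).card : ℝ) / p) ≤
        G * (VP P ^ 2 * fd y z D) := by
      gcongr
    nlinarith

lemma VP_pos (P : Finset ℕ) (hP : ∀ p ∈ P, p.Prime) : 0 < VP P := prod_pos fun p hp => fac_pos (hP p hp)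

lemma VP_le (P : Finset ℕ) (hP : ∀ p ∈ P, p.Prime) : VP P ≤ 1 :=
  prod_le_one (fun p hp => (fac_pos (hP p hp)).le) (fun p _ => fac_le)

lemma Vm_le_VP (P : Finset ℕ) (y z : ℕ) (hP : P ⊆ mid y z) : Vm y z ≤ VP P := by
  unfold Vm VP
  rw [← prod_sdiff hP]
  apply mul_le_of_le_one_left
  · exact prod_nonneg fun p hp => (fac_pos (mem_mid.1 (hP hp)).2.2).le
  · exact prod_le_one (fun p hp => (fac_pos (mem_mid.1 (mem_sdiff.1 hp).1).2.2).le) (fun p _ => fac_le)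

open Classical in
theorem rough (A : ℕ) (δ ε : ℝ) (hδ : 0 < δ) (hδ1 : δ ≤ 1) (hε : 0 < ε) (hε1 : ε ≤ 1) : ∃ K0 : ℕ, 1 ≤ K0 ∧ ∀ E : ℕ,
    ∃ T x0 : ℕ, ∀ x : ℕ, x0 ≤ x → ∀ y z : ℕ, K0 * Real.log (Real.log x) ≤ y → y ≤ z → (z : ℝ) ≤ Real.log x ^ E →
    ∀ S : Finset ℕ, S ⊆ Icc 1 x → (x : ℝ) ≤ S.card * Real.log x ^ A → ∀ P : Finset ℕ, P ⊆ mid y z →
    ∀ M : ℕ, (∀ p ∈ P, ¬ p ∣ M) →
    ∀ v : ℕ → ℕ, (∀ s ∈ S, ∀ t ∈ S, ∀ p w : ℕ, p ∣ v s + w → p ∣ v t + w → p ∣ Nat.dist s t * (s + t)) →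
    ∀ G : ℕ, Real.log x ^ T ≤ G →
    (((Icc 1 G).filter (fun g => ((S.filter (fun s => ∀ p ∈ P, ¬ p ∣ v s + M * g)).card : ℝ) <
      (1 - δ) * (S.card * VP P))).card : ℝ) ≤ ε * G := by
  obtain ⟨C, hC, Hc⟩ := cnt_two
  obtain ⟨δ₁, hδ₁⟩ : ∃ δ₁ : ℝ, δ₁ = δ / 2 := ⟨_, rfl⟩
  have hδ₁0 : 0 < δ₁ := by rw [hδ₁]; linarith
  have hδ₁1 : δ₁ ≤ 1 / 2 := by rw [hδ₁]; linarith
  obtain ⟨η', hη'⟩ : ∃ η' : ℝ, η' = ε * δ₁ ^ 2 / 2 := ⟨_, rfl⟩
  have hη'0 : 0 < η' := by rw [hη']; positivity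
  have hη'1 : η' ≤ 1 := by
    rw [hη']
    have : δ₁ ^ 2 ≤ 1 := pow_le_one₀ hδ₁0.le (by linarith)
    nlinarith
  obtain ⟨b', hb'⟩ := exists_pow_lt_of_lt_one (show (0 : ℝ) < min (δ / 2) (min (η' / 16) (1 / 4)) by positivity)
    (show (1 / 2 : ℝ) < 1 by norm_num)
  obtain ⟨b, hb⟩ : ∃ b, b = max C b' := ⟨_, rfl⟩
  obtain ⟨τ, hτ⟩ : ∃ τ : ℝ, τ = (1 / 2) ^ b := ⟨_, rfl⟩
  have hτ0 : 0 < τ := by rw [hτ]; positivity
  have hτm : τ ≤ min (δ / 2) (min (η' / 16) (1 / 4)) := by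
    refine le_trans ?_ hb'.le
    rw [hτ]
    exact pow_le_pow_of_le_one (by norm_num) (by norm_num) (by rw [hb]; exact le_max_right _ _)
  have hτ1 : τ ≤ δ / 2 := hτm.trans (min_le_left _ _)
  have hτ2 : τ ≤ η' / 16 := hτm.trans ((min_le_right _ _).trans (min_le_left _ _))
  have hτ3 : τ ≤ 1 / 4 := hτm.trans ((min_le_right _ _).trans (min_le_right _ _))
  obtain ⟨η, hη⟩ : ∃ η : ℝ, η = η' / 4 := ⟨_, rfl⟩
  have hη0 : 0 < η := by rw [hη]; linarith
  obtain ⟨ρ, hρ⟩ : ∃ ρ : ℝ, ρ = (1 + τ) / (1 - τ) ^ 2 := ⟨_, rfl⟩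
  have h1τ : 0 < 1 - τ := by linarith
  have hρ0 : 0 < ρ := by rw [hρ]; positivity
  have hρη : ρ * (1 + η) ≤ 1 + η' := by
    rw [hρ, div_mul_eq_mul_div, div_le_iff₀ (by positivity), hη]
    have h1 : 1 - 2 * τ ≤ (1 - τ) ^ 2 := by nlinarith
    have h2 : (1 + η') * (1 - 2 * τ) ≤ (1 + η') * (1 - τ) ^ 2 := mul_le_mul_of_nonneg_left h1 (by linarith)
    refine le_trans ?_ h2
    nlinarith
  have hlη : 0 < Real.log (1 + η) := Real.log_pos (by linarith)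
  obtain ⟨K0, hK0⟩ := exists_nat_ge (6 * ((A + 2) / Real.log (1 + η) + 1))
  refine ⟨max K0 6, by omega, fun E => ?_⟩
  obtain ⟨e1, he1⟩ : ∃ e1, e1 = 4 * (C * b) + 2 := ⟨_, rfl⟩
  obtain ⟨x1, hx1⟩ := Vz_inv_small E
  obtain ⟨x2, hx2⟩ := ev_L' (max (Real.exp 1) (max 4 (96 * (C : ℝ) ^ C / (ε * δ₁ ^ 2))))
  obtain ⟨x3, hx3⟩ := ev_log' (A + 2) (16 / (ε * δ₁ ^ 2))
  refine ⟨E * e1 + 4, max x1 (max x2 (max x3 1)), fun x hx y z hy hyz hz S hS hSc P hP M hM v hv G hG => ?_⟩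
  have b2 : x1 ≤ x := le_trans (le_max_left _ _) hx
  have b3 : x2 ≤ x := le_trans (le_trans (le_max_left _ _) (le_max_right _ _)) hx
  have b4 : x3 ≤ x := le_trans (le_trans (le_trans (le_max_left _ _) (le_max_right _ _)) (le_max_right _ _)) hx
  have b5 : 1 ≤ x := le_trans (le_trans (le_trans (le_max_right _ _) (le_max_right _ _)) (le_max_right _ _)) hx
  have hL := hx2 x b3
  have hx3' := hx3 x b4
  set L := Real.log x with hLd
  have hL1 : Real.exp 1 ≤ L := (le_max_left _ _).trans hL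
  have hL2 : 4 ≤ L := ((le_max_left _ _).trans (le_max_right _ _)).trans hL
  have hL3 : 96 * (C : ℝ) ^ C / (ε * δ₁ ^ 2) ≤ L := ((le_max_right _ _).trans (le_max_right _ _)).trans hL
  have hL0 : 0 < L := by linarith
  have hL1' : 1 ≤ L := by linarith
  have hLL : 1 ≤ Real.log L := by
    rw [← Real.log_exp 1]
    exact Real.log_le_log (Real.exp_pos 1) hL1
  have hxr : (1 : ℝ) ≤ x := by exact_mod_cast b5
  have hx0 : (0 : ℝ) < x := by linarith
  have hs1 : 1 ≤ √(x : ℝ) := by rw [← Real.sqrt_one]; exact Real.sqrt_le_sqrt hxr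
  have hGr : (1 : ℝ) ≤ G := (one_le_pow₀ hL1').trans hG
  have hG0 : (0 : ℝ) < G := by linarith
  -- K
  have hK : ((max K0 6 : ℕ) : ℝ) * Real.log L ≤ y := hy
  have hK6 : (6 : ℝ) ≤ ((max K0 6 : ℕ) : ℝ) := by exact_mod_cast le_max_right _ _
  have hKK : (K0 : ℝ) ≤ ((max K0 6 : ℕ) : ℝ) := by exact_mod_cast le_max_left _ _
  have hy6 : 6 ≤ y := by
    have : (6 : ℝ) ≤ y := by
      have h := mul_le_mul hK6 hLL zero_le_one (by linarith)
      linarith
    exact_mod_cast this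
  have hz2 : 2 ≤ z := by omega
  have hz1 : 1 ≤ z := by omega
  have hPpr : ∀ p ∈ P, p.Prime := fun p hp => (mem_mid.1 (hP hp)).2.2
  -- V
  obtain ⟨V, hV⟩ : ∃ V, V = VP P := ⟨_, rfl⟩
  have hV0 : 0 < V := by rw [hV]; exact VP_pos P hPpr
  have hV1 : V ≤ 1 := by rw [hV]; exact VP_le P hPpr
  have hVL : 1 / L ≤ V := by
    have h1 := hx1 x b2 z hz1 hz
    have h2 : Vz z ≤ Vm y z := by
      rw [Vz_split y z hyz]
      exact mul_le_of_le_one_left (Vm_pos y z).le (Vz_le_one y)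
    have h3 : L⁻¹ ≤ Vz z := by
      rw [inv_le_comm₀ (by linarith) (Vz_pos z)]
      exact h1
    rw [one_div, hV]
    exact h3.trans (h2.trans (Vm_le_VP P y z hP))
  obtain ⟨V₁, hV₁⟩ : ∃ V₁, V₁ = (1 - τ) * V := ⟨_, rfl⟩
  have hV₁0 : 0 < V₁ := by rw [hV₁]; positivity
  have hV₁1 : V₁ ≤ 1 := by rw [hV₁]; nlinarith
  have hV₁L : 1 / (2 * L) ≤ V₁ := by
    rw [hV₁]
    have : 1 / (2 * L) = 1 / 2 * (1 / L) := by field_simp
    rw [this]
    apply mul_le_mul (by linarith) hVL (by positivity) h1τ.le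
  have hV₁L2 : 1 / (4 * L ^ 2) ≤ V₁ ^ 2 := by
    have := pow_le_pow_left₀ (by positivity) hV₁L 2
    refine le_trans (le_of_eq ?_) this
    field_simp
    norm_num
  rw [← hV]
  set m : ℝ := (S.card : ℝ) with hm
  have hm0 : 0 < m := by
    by_contra h
    push Not at h
    have : m * L ^ A ≤ 0 := mul_nonpos_of_nonpos_of_nonneg h (by positivity)
    linarith
  obtain ⟨r, hr⟩ : ∃ r, r = RR C b C z := ⟨_, rfl⟩
  have hr0 : 0 ≤ r := by rw [hr]; exact RR_nonneg _ _ _ _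
  have hrL : r ≤ 2 * (C : ℝ) ^ C * L ^ (E * e1) := by
    have h1 : r = 2 * (C : ℝ) ^ C * (z : ℝ) ^ e1 := by
      rw [hr, he1]
      unfold RR
      rw [← pow_mul, pow_add, show 2 * (2 * (C * b)) = 4 * (C * b) by ring]
      ring
    rw [h1, pow_mul]
    apply mul_le_mul_of_nonneg_left _ (by positivity)
    exact pow_le_pow_left₀ (Nat.cast_nonneg _) hz e1
  -- choose n
  obtain ⟨n, hn⟩ : ∃ n, y / 6 = n + 1 := ⟨y / 6 - 1, by omega⟩
  have hn6 : 6 * (n + 1) ≤ y := by omega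
  have hpow : 4 * (x : ℝ) ≤ (1 + η) ^ (n + 1) * m := by
    have h1 : 4 * L ^ A ≤ (1 + η) ^ (n + 1) := by
      have h2 : ((n + 1 : ℕ) : ℝ) ≥ (y : ℝ) / 6 - 1 := by
        have : y < 6 * (n + 1) + 6 := by omega
        have h3 : (y : ℝ) < 6 * ((n + 1 : ℕ) : ℝ) + 6 := by exact_mod_cast this
        linarith
      have h3 : (y : ℝ) / 6 - 1 ≥ (K0 / 6 - 1) * Real.log L := by
        have h0 : (K0 : ℝ) * Real.log L ≤ y := le_trans (mul_le_mul_of_nonneg_right hKK (by linarith)) hK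
        have h1 : ((K0 : ℝ) / 6 - 1) * Real.log L = (K0 * Real.log L) / 6 - Real.log L := by ring
        rw [h1]
        linarith
      have h4 : (A + 2) / Real.log (1 + η) ≤ K0 / 6 - 1 := by linarith
      have h5 : (A + 2 : ℝ) ≤ (K0 / 6 - 1) * Real.log (1 + η) := by
        rwa [div_le_iff₀ hlη] at h4
      have h6 : Real.log (4 * L ^ A) ≤ ((n + 1 : ℕ) : ℝ) * Real.log (1 + η) := by
        rw [Real.log_mul (by norm_num) (by positivity), Real.log_pow]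
        have h7 : Real.log 4 ≤ 2 := by
          have : Real.log 4 = 2 * Real.log 2 := by
            rw [show (4 : ℝ) = 2 ^ 2 by norm_num, Real.log_pow]
            norm_num
          rw [this]
          have := Real.log_two_lt_d9
          linarith
        calc Real.log 4 + A * Real.log L ≤ 2 * Real.log L + A * Real.log L := by linarith
          _ = (A + 2) * Real.log L := by ring
          _ ≤ ((K0 / 6 - 1) * Real.log (1 + η)) * Real.log L := by gcongr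
          _ = ((K0 / 6 - 1) * Real.log L) * Real.log (1 + η) := by ring
          _ ≤ ((n + 1 : ℕ) : ℝ) * Real.log (1 + η) := by gcongr; linarith
      rw [← Real.log_pow] at h6
      exact (Real.log_le_log_iff (by positivity) (by positivity)).1 h6
    calc 4 * (x : ℝ) ≤ 4 * (m * L ^ A) := by gcongr
      _ = 4 * L ^ A * m := by ring
      _ ≤ _ := by gcongr
  obtain ⟨Pd, hPd⟩ : ∃ Pd : ℕ → ℕ → Prop, ∀ s g, Pd s g ↔ (∀ p ∈ P, ¬ p ∣ v s + M * g) := ⟨_, fun _ _ => Iff.rfl⟩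
  have hbC : C ≤ b := by rw [hb]; exact le_max_left _ _
  have c1 : ∀ s ∈ S, G * V₁ - r ≤ (((Icc 1 G).filter (fun g => Pd s g)).card : ℝ) := by
    intro s hs
    have := (Hc b C y z G P M (v s) (v s) 0 hbC le_rfl hz2 hP hM (fun p _ g _ _ => dvd_zero p)).1
    have e1 : (Icc 1 G).filter (fun g => Pd s g) = (Icc 1 G).filter (fun g => ∀ p ∈ P, ¬ p ∣ v s + M * g) := by
      ext g
      rw [mem_filter, mem_filter, hPd]
    rw [e1, hV₁, hr]
    rw [← hτ, ← hV] at this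
    linarith
  have c2 : ∀ s ∈ S, ∀ t ∈ S.erase s, (((Icc 1 G).filter (fun g => Pd s g ∧ Pd t g)).card : ℝ) ≤
      G * (V₁ ^ 2 * (ρ * FF y z s t)) + r := by
    intro s hs t ht
    have := (Hc b C y z G P M (v s) (v t) (Nat.dist s t * (s + t)) hbC le_rfl hz2 hP hM (by
      intro p hp g h1 h2
      exact hv s hs t (mem_of_mem_erase ht) p _ h1 h2)).2
    have e1 : (Icc 1 G).filter (fun g => Pd s g ∧ Pd t g) = (Icc 1 G).filter (fun g => (∀ p ∈ P, ¬ p ∣ v s + M * g) ∧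
        (∀ p ∈ P, ¬ p ∣ v t + M * g)) := by
      ext g
      rw [mem_filter, mem_filter, hPd, hPd]
    rw [e1]
    rw [← hτ, ← hV, ← hr] at this
    refine this.trans (add_le_add ?_ le_rfl)
    have h5 : fd y z (Nat.dist s t * (s + t)) ≤ FF y z s t := fd_mul _ _ _ _
    have h6 : V₁ ^ 2 * (ρ * FF y z s t) = (1 + τ) * (V ^ 2 * FF y z s t) := by
      rw [hV₁, hρ]
      field_simp
    rw [h6]
    calc (1 + τ) * (G * (V ^ 2 * fd y z (Nat.dist s t * (s + t)))) ≤ (1 + τ) * (G * (V ^ 2 * FF y z s t)) := by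
          gcongr
      _ = _ := by ring
  have c3 : ∀ s ∈ S, ∑ t ∈ S.erase s, ρ * FF y z s t ≤ (1 + η') * m := fun s hs => by
    rw [← mul_sum]
    calc ρ * ∑ t ∈ S.erase s, FF y z s t ≤ ρ * ((1 + η) * m) := by
          apply mul_le_mul_of_nonneg_left _ hρ0.le
          exact FF_sum y z n x (by omega) hn6 S hS η hη0 hpow s hs
      _ = (ρ * (1 + η)) * m := by ring
      _ ≤ (1 + η') * m := mul_le_mul_of_nonneg_right hρη hm0.le
  have key := cheb S (Icc 1 G) Pd V₁ η' δ₁ r m G (fun s t => ρ * FF y z s t) hV₁0 hV₁1 hδ₁0 rfl (by simp) hr0 c1 c2 c3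
  have e2 : (Icc 1 G).filter (fun g => ((S.filter (fun s => ∀ p ∈ P, ¬ p ∣ v s + M * g)).card : ℝ) <
      (1 - δ) * (m * V)) ⊆ (Icc 1 G).filter (fun g => ((S.filter (fun s => Pd s g)).card : ℝ) < (1 - δ₁) * (m * V₁)) := by
    intro g hg
    rw [mem_filter] at hg ⊢
    refine ⟨hg.1, ?_⟩
    have e3 : S.filter (fun s => Pd s g) = S.filter (fun s => ∀ p ∈ P, ¬ p ∣ v s + M * g) := by
      ext s
      rw [mem_filter, mem_filter, hPd]
    rw [e3]
    refine hg.2.trans_le ?_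
    rw [hV₁, hδ₁]
    have h1 : (1 - δ) ≤ (1 - δ / 2) * (1 - τ) := by nlinarith
    calc (1 - δ) * (m * V) ≤ ((1 - δ / 2) * (1 - τ)) * (m * V) := mul_le_mul_of_nonneg_right h1 (by positivity)
      _ = _ := by ring
  have e3 : (((Icc 1 G).filter (fun g => ((S.filter (fun s => ∀ p ∈ P, ¬ p ∣ v s + M * g)).card : ℝ) <
      (1 - δ) * (m * V))).card : ℝ) ≤
      (((Icc 1 G).filter (fun g => ((S.filter (fun s => Pd s g)).card : ℝ) < (1 - δ₁) * (m * V₁))).card : ℝ) := by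
    exact_mod_cast card_le_card e2
  refine e3.trans ?_
  set cnt : ℝ := (((Icc 1 G).filter (fun g => ((S.filter (fun s => Pd s g)).card : ℝ) < (1 - δ₁) * (m * V₁))).card : ℝ) with hcnt
  have hcnt0 : 0 ≤ cnt := Nat.cast_nonneg _
  have hmV : 0 < m * V₁ := by positivity
  have hεδ : 0 < ε * δ₁ ^ 2 := by positivity
  have k1 : m * G ≤ ε / 4 * δ₁ ^ 2 * (G * (m * V₁) ^ 2) := by
    have h2 : 16 * L ^ (A + 2) ≤ ε * δ₁ ^ 2 * x := by
      rw [div_mul_eq_mul_div, div_le_iff₀ hεδ] at hx3'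
      have h5 : √(x : ℝ) ≤ x := by
        calc √(x : ℝ) = √(x : ℝ) * 1 := (mul_one _).symm
          _ ≤ √(x : ℝ) * √(x : ℝ) := mul_le_mul_of_nonneg_left hs1 (Real.sqrt_nonneg _)
          _ = x := Real.mul_self_sqrt hx0.le
      nlinarith
    have h3 : 1 ≤ ε / 4 * δ₁ ^ 2 * (m * V₁ ^ 2) := by
      have h5 : (x : ℝ) / L ^ A ≤ m := by
        rw [div_le_iff₀ (by positivity)]
        exact hSc
      have h6 : (x / L ^ A) * (1 / (4 * L ^ 2)) ≤ m * V₁ ^ 2 := mul_le_mul h5 hV₁L2 (by positivity) hm0.le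
      have h7 : 4 ≤ ε * δ₁ ^ 2 * ((x / L ^ A) * (1 / (4 * L ^ 2))) := by
        have e5 : ε * δ₁ ^ 2 * ((x / L ^ A) * (1 / (4 * L ^ 2))) = (ε * δ₁ ^ 2 * x) / (4 * L ^ (A + 2)) := by
          rw [pow_add]
          field_simp
        rw [e5, le_div_iff₀ (by positivity)]
        linarith
      nlinarith
    calc m * G = m * G * 1 := by ring
      _ ≤ m * G * (ε / 4 * δ₁ ^ 2 * (m * V₁ ^ 2)) := by gcongr
      _ = _ := by ring
  have k2 : 3 * (m ^ 2 * r) ≤ ε / 4 * δ₁ ^ 2 * (G * (m * V₁) ^ 2) := by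
    have h1 : 48 * L ^ 2 * r ≤ ε * δ₁ ^ 2 * G := by
      rw [div_le_iff₀ hεδ] at hL3
      calc 48 * L ^ 2 * r ≤ 48 * L ^ 2 * (2 * (C : ℝ) ^ C * L ^ (E * e1)) := by gcongr
        _ = (96 * (C : ℝ) ^ C) * (L ^ 2 * L ^ (E * e1)) := by ring
        _ ≤ (L * (ε * δ₁ ^ 2)) * (L ^ 2 * L ^ (E * e1)) := by gcongr
        _ = (ε * δ₁ ^ 2) * (L ^ 3 * L ^ (E * e1)) := by ring
        _ ≤ (ε * δ₁ ^ 2) * (L ^ 4 * L ^ (E * e1)) := by
            gcongr
            norm_num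
        _ = (ε * δ₁ ^ 2) * L ^ (E * e1 + 4) := by rw [pow_add]; ring
        _ ≤ (ε * δ₁ ^ 2) * G := by gcongr
    have h2 : 12 * r ≤ ε * δ₁ ^ 2 * (G * V₁ ^ 2) := by
      have h3 : 12 * r = (48 * L ^ 2 * r) * (1 / (4 * L ^ 2)) := by
        rw [mul_one_div, eq_div_iff (by positivity)]
        ring
      rw [h3]
      calc (48 * L ^ 2 * r) * (1 / (4 * L ^ 2)) ≤ (ε * δ₁ ^ 2 * G) * V₁ ^ 2 := mul_le_mul h1 hV₁L2 (by positivity) (by positivity)
        _ = _ := by ring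
    have h3 : 0 ≤ m ^ 2 := sq_nonneg m
    calc 3 * (m ^ 2 * r) = m ^ 2 * (12 * r) / 4 := by ring
      _ ≤ m ^ 2 * (ε * δ₁ ^ 2 * (G * V₁ ^ 2)) / 4 := by gcongr
      _ = _ := by ring
  have h4 : cnt * (δ₁ * (m * V₁)) ^ 2 ≤ (ε * G) * (δ₁ * (m * V₁)) ^ 2 := by
    refine key.trans ?_
    rw [hη']
    have e5 : (ε * G) * (δ₁ * (m * V₁)) ^ 2 = ε * δ₁ ^ 2 / 2 * (G * (m * V₁) ^ 2) +
        (ε / 4 * δ₁ ^ 2 * (G * (m * V₁) ^ 2) + ε / 4 * δ₁ ^ 2 * (G * (m * V₁) ^ 2)) := by ring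
    rw [e5]
    linarith
  exact le_of_mul_le_mul_right h4 (by positivity)

end Pool.Agent.T2h83.UP
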